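import Mathlib
import Pool.Agent.H13.DigitOut

namespace Pool.Agent.Results.MP_6ae9d2_nt.Cofinite

open Pool.Agent.H13.DigitOut

/-- digit sums in base `b` of the positive multiples of `n` -/
def Out (b n : ℕ) : Set ℕ := {u | 0 < u ∧ ∃ N, 0 < N ∧ n ∣ N ∧ (Nat.digits b N).sum = u}

theorem result (b n : ℕ) (hb : 2 ≤ b) (hn : 1 ≤ n) :
    (∀ u ∈ Out b n, ∀ v ∈ Out b n, u + v ∈ Out b n) ∧
    (∀ m k : ℕ, m ∣ b ^ k → Out b (n * m) = Out b n) ∧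
    (∀ u, 0 < u → Nat.gcd (b - 1) n ∣ u → n / Nat.gcd (b - 1) n ≤ u + 1 → u ∈ Out b n) := by
  refine ⟨fun u hu v hv => ⟨by have := hu.1; omega, add b n u v hb hu.2 hv.2⟩, fun m k hm => ?_,
    fun u hu h1 h2 => ⟨hu, main b n u hb hn hu h1 h2⟩⟩
  ext u
  constructor
  · rintro ⟨hu, N, a1, a2, a3⟩
    exact ⟨hu, N, a1, (dvd_mul_right _ _).trans a2, a3⟩
  · rintro ⟨hu, N, a1, a2, a3⟩
    refine ⟨hu, b ^ k * N, by positivity, ?_, by rw [s_pow _ _ _ hb, a3]⟩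
    rw [mul_comm n]
    exact mul_dvd_mul hm a2

end Pool.Agent.Results.MP_6ae9d2_nt.Cofinite
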